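import Mathlib

/-!
# The class of Boolean `(m,0)`-products need not have a smallest element

For every infinite cardinal `m` we exhibit a countable family of four-element Boolean algebras
for which a minimal `(m,0)`-product exists, but for which the class of all `(m,0)`-products has no
smallest element.  In particular the minimal product is not the smallest one.
-/

set_option autoImplicit false

namespace Pool.Agent.Results.MP_27bb78_al.NoSmallestProduct

open Cardinal TopologicalSpace

/-- A Boolean algebra is an `m`-algebra if every subset of cardinality at most `m` has a least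
upper bound and a greatest lower bound. -/
def IsMAlgebra (m : Cardinal.{0}) (B : Type) [BooleanAlgebra B] : Prop :=
  ∀ s : Set B, #s ≤ m → (∃ x, IsLUB s x) ∧ (∃ x, IsGLB s x)

/-- A Boolean homomorphism is an `m`-homomorphism if it preserves every existing join and every
existing meet of at most `m` elements. -/
def IsMHom (m : Cardinal.{0}) {A B : Type} [BooleanAlgebra A] [BooleanAlgebra B]
    (f : BoundedLatticeHom A B) : Prop :=
  ∀ s : Set A, #s ≤ m →
    (∀ x, IsLUB s x → IsLUB (f '' s) (f x)) ∧ (∀ x, IsGLB s x → IsGLB (f '' s) (f x))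

/-- The set `X` `m`-generates `B`: every subset of `B` containing `X` and closed under complements
and under existing joins of at most `m` elements is all of `B`. -/
def MGenerates (m : Cardinal.{0}) {B : Type} [BooleanAlgebra B] (X : Set B) : Prop :=
  ∀ S : Set B, X ⊆ S → (∀ x ∈ S, xᶜ ∈ S) →
    (∀ s : Set B, s ⊆ S → #s ≤ m → ∀ x, IsLUB s x → x ∈ S) → S = Set.univ

/-- Boolean `(m,0)`-products of a family `A` of Boolean algebras. -/
structure MProduct (m : Cardinal.{0}) {T : Type} (A : T → Type)
    [∀ t, BooleanAlgebra (A t)] where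
  /-- the underlying algebra of the product -/
  B : Type
  [boolB : BooleanAlgebra B]
  /-- the embeddings of the factors -/
  i : ∀ t, BoundedLatticeHom (A t) B
  isMAlgebra : IsMAlgebra m B
  isMHom : ∀ t, IsMHom m (i t)
  injective : ∀ t, Function.Injective (i t)
  independent : ∀ (F : Finset T) (a : ∀ t, A t), (∀ t ∈ F, a t ≠ ⊥) →
    F.inf (fun t => i t (a t)) ≠ ⊥
  generates : MGenerates m (⋃ t, Set.range (i t))

attribute [instance] MProduct.boolB

/-- The preorder on `(m,0)`-products: `P' ≤ P` iff some `m`-homomorphism `h : P → P'` satisfies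
`i' t = h ∘ i t` for all `t`. -/
def MProduct.Le {m : Cardinal.{0}} {T : Type} {A : T → Type} [∀ t, BooleanAlgebra (A t)]
    (P' P : MProduct m A) : Prop :=
  ∃ h : BoundedLatticeHom P.B P'.B, IsMHom m h ∧ ∀ t a, P'.i t a = h (P.i t a)

/-- A product is minimal if the finite meets of elements of the factors are dense in it. -/
def MProduct.IsMinimal {m : Cardinal.{0}} {T : Type} {A : T → Type}
    [∀ t, BooleanAlgebra (A t)] (P : MProduct m A) : Prop :=
  ∀ b : P.B, b ≠ ⊥ → ∃ (F : Finset T) (a : ∀ t, A t),
    F.inf (fun t => P.i t (a t)) ≠ ⊥ ∧ F.inf (fun t => P.i t (a t)) ≤ b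

/-! ### Generalities -/

/-- A bounded lattice homomorphism out of a finite Boolean algebra is an `m`-homomorphism. -/
theorem isMHom_of_finite (m : Cardinal.{0}) {A B : Type} [BooleanAlgebra A] [BooleanAlgebra B]
    [Finite A] (f : BoundedLatticeHom A B) : IsMHom m f := by
  classical
  intro s _
  have hs : s.Finite := Set.toFinite s
  constructor
  · intro x hx
    have hx' : x = hs.toFinset.sup id := by
      apply hx.unique
      have := Finset.isLUB_sup (s := hs.toFinset) (f := (id : A → A))
      simpa using this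
    have h2 : f x = hs.toFinset.sup f := by
      rw [hx', map_finset_sup]; rfl
    rw [h2]
    have := Finset.isLUB_sup (s := hs.toFinset) (f := f)
    simpa using this
  · intro x hx
    have hx' : x = hs.toFinset.inf id := by
      apply hx.unique
      have := Finset.isGLB_inf (s := hs.toFinset) (f := (id : A → A))
      simpa using this
    have h2 : f x = hs.toFinset.inf f := by
      rw [hx', map_finset_inf]; rfl
    rw [h2]
    have := Finset.isGLB_inf (s := hs.toFinset) (f := f)
    simpa using this

/-- A set closed under complements and `m`-joins is closed under `m`-meets. -/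
theorem closed_isGLB {m : Cardinal.{0}} {B : Type} [BooleanAlgebra B] {S : Set B}
    (hc : ∀ x ∈ S, xᶜ ∈ S)
    (hj : ∀ s : Set B, s ⊆ S → #s ≤ m → ∀ x, IsLUB s x → x ∈ S)
    (s : Set B) (hs : s ⊆ S) (hm : #s ≤ m) (x : B) (hx : IsGLB s x) : x ∈ S := by
  have h1 : IsLUB (compl '' s) xᶜ := by
    constructor
    · rintro _ ⟨y, hy, rfl⟩
      exact compl_le_compl (hx.1 hy)
    · intro z hz
      have : zᶜ ≤ x := by
        apply hx.2
        intro y hy
        have := hz ⟨y, hy, rfl⟩
        exact compl_le_iff_compl_le.mp this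
      exact compl_le_iff_compl_le.mp this
  have h2 : xᶜ ∈ S := by
    apply hj _ _ _ _ h1
    · rintro _ ⟨y, hy, rfl⟩
      exact hc y (hs hy)
    · exact mk_image_le.trans hm
  have := hc _ h2
  rwa [compl_compl] at this

theorem closed_inf {m : Cardinal.{0}} (hm : ℵ₀ ≤ m) {B : Type} [BooleanAlgebra B] {S : Set B}
    (hc : ∀ x ∈ S, xᶜ ∈ S)
    (hj : ∀ s : Set B, s ⊆ S → #s ≤ m → ∀ x, IsLUB s x → x ∈ S)
    {T : Type} (F : Finset T) (g : T → B) (hg : ∀ t ∈ F, g t ∈ S) : F.inf g ∈ S := by
  apply closed_isGLB hc hj (g '' F) _ _ _ Finset.isGLB_inf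
  · rintro _ ⟨t, ht, rfl⟩
    exact hg t ht
  · exact (mk_le_aleph0_iff.mpr ((Finset.countable_toSet F).image g).to_subtype).trans hm

/-! ### The algebra of regular open sets of Cantor space -/

/-- regular open subsets of Cantor space -/
abbrev RO : Type := Heyting.Regular (Opens (ℕ → Bool))

theorem RO.mem_inf (a b : RO) (x : ℕ → Bool) :
    x ∈ ((@min RO SemilatticeInf.toMin a b : RO) : Opens (ℕ → Bool)) ↔
      x ∈ (a : Opens (ℕ → Bool)) ∧ x ∈ (b : Opens (ℕ → Bool)) := Iff.rfl

theorem decide_mem_filter (F : Finset ℕ) (x : ℕ → Bool) (t : ℕ) (ht : t ∈ F) :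
    decide (t ∈ F.filter (fun t => x t = true)) = x t := by
  by_cases h : x t = true
  · simp [Finset.mem_filter, ht, h]
  · simp [Finset.mem_filter, h]

theorem RO.exists_isLUB (s : Set RO) : ∃ x, IsLUB s x := by
  refine ⟨Heyting.Regular.toRegular (sSup ((↑) '' s)), ?_, ?_⟩
  · intro x hx
    have h1 : (x : Opens (ℕ → Bool)) ≤ sSup ((↑) '' s) := le_sSup ⟨x, hx, rfl⟩
    have h2 := Heyting.Regular.toRegular.monotone h1
    rwa [Heyting.Regular.toRegular_coe] at h2
  · intro y hy
    have h1 : sSup ((↑) '' s) ≤ (y : Opens (ℕ → Bool)) := by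
      apply sSup_le
      rintro _ ⟨x, hx, rfl⟩
      exact Heyting.Regular.coe_le_coe.mpr (hy hx)
    have h2 := Heyting.Regular.toRegular.monotone h1
    rwa [Heyting.Regular.toRegular_coe] at h2

theorem exists_isGLB_of_isLUB {B : Type} [BooleanAlgebra B] (h : ∀ s : Set B, ∃ x, IsLUB s x)
    (s : Set B) : ∃ x, IsGLB s x := by
  obtain ⟨x, hx⟩ := h (compl '' s)
  refine ⟨xᶜ, ?_, ?_⟩
  · intro y hy
    have := hx.1 ⟨y, hy, rfl⟩
    exact compl_le_iff_compl_le.mp this
  · intro z hz
    have : x ≤ zᶜ := by
      apply hx.2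
      rintro _ ⟨y, hy, rfl⟩
      exact compl_le_compl (hz hy)
    exact le_compl_comm.mp this


theorem isOpen_coord (t : ℕ) (a : Set Bool) : IsOpen {x : ℕ → Bool | x t ∈ a} :=
  (isOpen_discrete a).preimage (continuous_apply t)

/-- the clopen set of all points of Cantor space whose `t`-th coordinate is in `a` -/
def coordOpen (t : ℕ) (a : Set Bool) : Opens (ℕ → Bool) := ⟨{x | x t ∈ a}, isOpen_coord t a⟩

theorem mem_compl_opens {U : Opens (ℕ → Bool)} (hU : IsClosed (U : Set (ℕ → Bool)))
    (x : ℕ → Bool) : x ∈ Uᶜ ↔ x ∉ U := by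
  constructor
  · intro hx hxU
    have h : U ⊓ Uᶜ = ⊥ := inf_compl_self U
    have : x ∈ U ⊓ Uᶜ := ⟨hxU, hx⟩
    rw [h] at this
    exact this
  · intro hx
    let V : Opens (ℕ → Bool) := ⟨(U : Set (ℕ → Bool))ᶜ, hU.isOpen_compl⟩
    have hV : V ≤ Uᶜ := by
      rw [le_compl_iff_disjoint_right]
      rw [disjoint_iff_inf_le]
      intro y hy
      exact hy.1 hy.2
    exact hV hx

theorem coordOpen_compl (t : ℕ) (a : Set Bool) : (coordOpen t a)ᶜ = coordOpen t aᶜ := by
  ext x
  have hcl : IsClosed ((coordOpen t a : Opens (ℕ → Bool)) : Set (ℕ → Bool)) :=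
    (isClosed_discrete a).preimage (continuous_apply t)
  have := mem_compl_opens hcl x
  simp only [SetLike.mem_coe]
  rw [this]
  rfl

theorem coordOpen_regular (t : ℕ) (a : Set Bool) : Heyting.IsRegular (coordOpen t a) := by
  unfold Heyting.IsRegular
  rw [coordOpen_compl, coordOpen_compl, compl_compl]

/-- the coordinate clopen set as a regular open set -/
def coordRO (t : ℕ) (a : Set Bool) : RO := ⟨coordOpen t a, coordOpen_regular t a⟩

theorem coe_coordRO (t : ℕ) (a : Set Bool) : ((coordRO t a : RO) : Opens (ℕ → Bool)) = coordOpen t a :=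
  rfl

/-- the embedding of the `t`-th four-element algebra in the regular open algebra -/
def homRO (t : ℕ) : BoundedLatticeHom (Set Bool) RO where
  toFun := coordRO t
  map_sup' a b := by
    apply Heyting.Regular.coe_injective
    rw [Heyting.Regular.coe_sup]
    have h : ((coordRO t a : RO) : Opens (ℕ → Bool)) ⊔ (coordRO t b : RO) = coordOpen t (a ⊔ b) := by
      ext x
      rfl
    rw [h, coordOpen_compl, coordOpen_compl, compl_compl]
    rfl
  map_inf' a b := by
    apply Heyting.Regular.coe_injective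
    ext x
    exact Iff.rfl
  map_top' := by
    apply Heyting.Regular.coe_injective
    rw [Heyting.Regular.coe_top]
    ext x
    simp [coe_coordRO, coordOpen]
  map_bot' := by
    apply Heyting.Regular.coe_injective
    rw [Heyting.Regular.coe_bot]
    ext x
    simp [coe_coordRO, coordOpen]

theorem mem_finset_inf_RO (F : Finset ℕ) (a : ℕ → Set Bool) (x : ℕ → Bool) :
    x ∈ ((F.inf (fun t => homRO t (a t)) : RO) : Opens (ℕ → Bool)) ↔ ∀ t ∈ F, x t ∈ a t := by
  classical
  induction F using Finset.induction_on with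
  | empty =>
    simp only [Finset.inf_empty, Heyting.Regular.coe_top, Finset.notMem_empty, false_imp_iff,
      implies_true, iff_true]
    trivial
  | insert t F ht ih =>
    rw [Finset.inf_insert, RO.mem_inf, Finset.forall_mem_insert, ← ih]
    rfl

/-- the standard neighbourhoods of a point in the regular open algebra -/
def cyl (x : ℕ → Bool) (n : ℕ) : RO := (Finset.range n).inf (fun t => homRO t {x t})

theorem mem_cyl (x : ℕ → Bool) (n : ℕ) (y : ℕ → Bool) :
    y ∈ ((cyl x n : RO) : Opens (ℕ → Bool)) ↔ ∀ t < n, y t = x t := by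
  unfold cyl
  rw [mem_finset_inf_RO]
  simp

theorem exists_cyl_le (U : RO) (x : ℕ → Bool) (hx : x ∈ (U : Opens (ℕ → Bool))) :
    ∃ n, cyl x n ≤ U := by
  have hb := PiNat.isTopologicalBasis_cylinders (E := fun _ : ℕ => Bool)
  obtain ⟨V, ⟨y, n, rfl⟩, hxV, hVU⟩ := hb.exists_subset_of_mem_open hx U.1.isOpen
  refine ⟨n, ?_⟩
  rw [← Heyting.Regular.coe_le_coe]
  intro z hz
  apply hVU
  have hz' := (mem_cyl x n z).mp hz
  rw [PiNat.mem_cylinder_iff] at hxV ⊢
  intro i hi
  rw [hz' i hi, hxV i hi]

theorem ne_bot_iff_RO (U : RO) : U ≠ ⊥ ↔ ∃ x, x ∈ (U : Opens (ℕ → Bool)) := by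
  constructor
  · intro h
    by_contra hne
    push Not at hne
    apply h
    apply Heyting.Regular.coe_injective
    rw [Heyting.Regular.coe_bot]
    ext x
    simp only [SetLike.mem_coe]
    constructor
    · intro hx
      exact absurd hx (hne x)
    · intro hx
      exact absurd hx (by simp)
  · rintro ⟨x, hx⟩ h
    rw [h, Heyting.Regular.coe_bot] at hx
    exact absurd hx (by simp)

theorem countable_cyls : (Set.range (fun p : (ℕ → Bool) × ℕ => cyl p.1 p.2)).Countable := by
  classical
  -- every cylinder is a cylinder around an eventually zero sequence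
  have : Set.range (fun p : (ℕ → Bool) × ℕ => cyl p.1 p.2) ⊆
      Set.range (fun p : Finset ℕ × ℕ => cyl (fun t => decide (t ∈ p.1)) p.2) := by
    rintro _ ⟨⟨x, n⟩, rfl⟩
    refine ⟨⟨(Finset.range n).filter (fun t => x t = true), n⟩, ?_⟩
    unfold cyl
    apply Finset.inf_congr rfl
    intro t ht
    simp only [decide_mem_filter (Finset.range n) x t ht]
  exact (Set.countable_range _).mono this

theorem generates_RO (m : Cardinal.{0}) (hm : ℵ₀ ≤ m) :
    MGenerates m (⋃ t, Set.range (homRO t)) := by
  intro S hS hc hj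
  have hcyl : ∀ x n, cyl x n ∈ S := by
    intro x n
    apply closed_inf hm hc hj
    intro t _
    exact hS (Set.mem_iUnion.mpr ⟨t, ⟨_, rfl⟩⟩)
  apply Set.eq_univ_of_forall
  intro U
  apply hj {V | V ∈ Set.range (fun p : (ℕ → Bool) × ℕ => cyl p.1 p.2) ∧ V ≤ U}
  · rintro V ⟨⟨⟨x, n⟩, rfl⟩, _⟩
    exact hcyl x n
  · have hcount : {V | V ∈ Set.range (fun p : (ℕ → Bool) × ℕ => cyl p.1 p.2) ∧ V ≤ U}.Countable :=
      countable_cyls.mono (fun V hV => hV.1)
    exact (mk_le_aleph0_iff.mpr hcount.to_subtype).trans hm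
  · constructor
    · intro V hV
      exact hV.2
    · intro W hW
      rw [← Heyting.Regular.coe_le_coe]
      intro x hx
      obtain ⟨n, hn⟩ := exists_cyl_le U x hx
      have h1 : cyl x n ≤ W := hW ⟨⟨⟨x, n⟩, rfl⟩, hn⟩
      have h2 : x ∈ ((cyl x n : RO) : Opens (ℕ → Bool)) := (mem_cyl x n x).mpr (fun _ _ => rfl)
      exact (Heyting.Regular.coe_le_coe.mpr h1) h2

/-- The minimal product of countably many four-element algebras: the regular open algebra of
Cantor space. -/
noncomputable def minimalProduct (m : Cardinal.{0}) (hm : ℵ₀ ≤ m) :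
    MProduct m (fun _ : ℕ => Set Bool) where
  B := RO
  i := homRO
  isMAlgebra s _ := ⟨RO.exists_isLUB s, exists_isGLB_of_isLUB RO.exists_isLUB s⟩
  isMHom t := isMHom_of_finite m (homRO t)
  injective t := by
    intro a b hab
    have h : coordOpen t a = coordOpen t b := congrArg Heyting.Regular.val hab
    ext c
    have h1 : (fun _ : ℕ => c) ∈ coordOpen t a ↔ (fun _ : ℕ => c) ∈ coordOpen t b := by rw [h]
    exact h1
  independent F a ha := by
    classical
    rw [ne_bot_iff_RO]
    have : ∀ t, ∃ c : Bool, t ∈ F → c ∈ a t := by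
      intro t
      by_cases ht : t ∈ F
      · obtain ⟨c, hc⟩ := Set.nonempty_iff_ne_empty.mpr (ha t ht)
        exact ⟨c, fun _ => hc⟩
      · exact ⟨true, fun h => absurd h ht⟩
    choose x hx using this
    exact ⟨x, (mem_finset_inf_RO F a x).mpr hx⟩
  generates := generates_RO m hm

theorem minimalProduct_isMinimal (m : Cardinal.{0}) (hm : ℵ₀ ≤ m) :
    (minimalProduct m hm).IsMinimal := by
  intro b hb
  obtain ⟨x, hx⟩ := (ne_bot_iff_RO b).mp hb
  obtain ⟨n, hn⟩ := exists_cyl_le b x hx
  refine ⟨Finset.range n, fun t => {x t}, ?_, hn⟩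
  exact (ne_bot_iff_RO _).mpr ⟨x, (mem_cyl x n x).mpr (fun _ _ => rfl)⟩

/-! ### A product that is an algebra of sets of a countable dense set -/

/-- the embedding of the `t`-th four-element algebra in the power set of `Finset ℕ` -/
def homSet (t : ℕ) : BoundedLatticeHom (Set Bool) (Set (Finset ℕ)) where
  toFun a := {G | decide (t ∈ G) ∈ a}
  map_sup' _ _ := rfl
  map_inf' _ _ := rfl
  map_top' := rfl
  map_bot' := rfl

theorem mem_homSet (t : ℕ) (a : Set Bool) (G : Finset ℕ) : G ∈ homSet t a ↔ decide (t ∈ G) ∈ a :=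
  Iff.rfl

theorem mem_finset_inf_set (F : Finset ℕ) (a : ℕ → Set Bool) (G : Finset ℕ) :
    G ∈ F.inf (fun t => homSet t (a t)) ↔ ∀ t ∈ F, decide (t ∈ G) ∈ a t := by
  classical
  induction F using Finset.induction_on with
  | empty => simp
  | insert t F ht ih =>
    rw [Finset.inf_insert, Finset.forall_mem_insert, ← ih]
    rfl

theorem exists_isLUB_set (s : Set (Set (Finset ℕ))) : ∃ x, IsLUB s x := ⟨sSup s, isLUB_sSup s⟩

theorem isGLB_singleton (G : Finset ℕ) :
    IsGLB (Set.range (fun t => homSet t {decide (t ∈ G)})) ({G} : Set (Finset ℕ)) := by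
  constructor
  · rintro _ ⟨t, rfl⟩ G' hG'
    rw [Set.mem_singleton_iff] at hG'
    rw [hG', mem_homSet]
    rfl
  · intro X hX G' hG'
    rw [Set.mem_singleton_iff]
    ext t
    have h1 := hX ⟨t, rfl⟩ hG'
    rw [mem_homSet, Set.mem_singleton_iff] at h1
    simpa using h1

theorem generates_set (m : Cardinal.{0}) (hm : ℵ₀ ≤ m) :
    MGenerates m (⋃ t, Set.range (homSet t)) := by
  intro S hS hc hj
  have hsingle : ∀ G : Finset ℕ, ({G} : Set (Finset ℕ)) ∈ S := by
    intro G
    apply closed_isGLB hc hj _ _ _ _ (isGLB_singleton G)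
    · rintro _ ⟨t, rfl⟩
      exact hS (Set.mem_iUnion.mpr ⟨t, ⟨_, rfl⟩⟩)
    · exact (mk_le_aleph0_iff.mpr (Set.countable_range _).to_subtype).trans hm
  apply Set.eq_univ_of_forall
  intro X
  apply hj ((fun G : Finset ℕ => ({G} : Set (Finset ℕ))) '' X)
  · rintro _ ⟨G, _, rfl⟩
    exact hsingle G
  · exact (mk_le_aleph0_iff.mpr ((Set.to_countable X).image _).to_subtype).trans hm
  · constructor
    · rintro _ ⟨G, hG, rfl⟩
      exact Set.singleton_subset_iff.mpr hG
    · intro Y hY G hG
      exact hY ⟨G, hG, rfl⟩ rfl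

/-- The power set of `Finset ℕ` as an `(m,0)`-product of countably many four-element algebras. -/
noncomputable def setProduct (m : Cardinal.{0}) (hm : ℵ₀ ≤ m) :
    MProduct m (fun _ : ℕ => Set Bool) where
  B := Set (Finset ℕ)
  i := homSet
  isMAlgebra s _ := ⟨exists_isLUB_set s, exists_isGLB_of_isLUB exists_isLUB_set s⟩
  isMHom t := isMHom_of_finite m (homSet t)
  injective t := by
    intro a b hab
    ext c
    cases c
    · have h1 : (∅ : Finset ℕ) ∈ homSet t a ↔ (∅ : Finset ℕ) ∈ homSet t b := by rw [hab]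
      simpa [mem_homSet] using h1
    · have h1 : ({t} : Finset ℕ) ∈ homSet t a ↔ ({t} : Finset ℕ) ∈ homSet t b := by rw [hab]
      simpa [mem_homSet] using h1
  independent F a ha := by
    classical
    have : ∀ t, ∃ c : Bool, t ∈ F → c ∈ a t := by
      intro t
      by_cases ht : t ∈ F
      · obtain ⟨c, hc⟩ := Set.nonempty_iff_ne_empty.mpr (ha t ht)
        exact ⟨c, fun _ => hc⟩
      · exact ⟨true, fun h => absurd h ht⟩
    choose x hx using this
    intro h
    have hmem : (F.filter (fun t => x t = true)) ∈ F.inf (fun t => homSet t (a t)) := by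
      rw [mem_finset_inf_set]
      intro t ht
      rw [decide_mem_filter F x t ht]
      exact hx t ht
    rw [h] at hmem
    exact hmem
  generates := generates_set m hm

/-! ### The main theorem -/

/-- In the minimal product the standard neighbourhoods of a point have meet zero. -/
theorem isGLB_bot (x : ℕ → Bool) : IsGLB (Set.range (fun t => homRO t {x t})) (⊥ : RO) := by
  constructor
  · rintro _ ⟨t, rfl⟩
    exact bot_le
  · intro U hU
    by_contra hne
    have hU0 : U ≠ ⊥ := by
      intro h
      exact hne h.le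
    obtain ⟨y, hy⟩ := (ne_bot_iff_RO U).mp hU0
    obtain ⟨n, hn⟩ := exists_cyl_le U y hy
    -- change the `n`-th coordinate
    have hz : (Function.update y n (!x n)) ∈ ((cyl y n : RO) : Opens (ℕ → Bool)) := by
      rw [mem_cyl]
      intro t ht
      rw [Function.update_of_ne ht.ne]
    have h1 : cyl y n ≤ homRO n {x n} := hn.trans (hU ⟨n, rfl⟩)
    have h2 := (Heyting.Regular.coe_le_coe.mpr h1) hz
    have h3 : (Function.update y n (!x n)) n ∈ ({x n} : Set Bool) := h2
    rw [Function.update_self, Set.mem_singleton_iff] at h3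
    cases h : x n <;> simp_all

/-- An `(m,0)`-product of four-element algebras cannot be below both products above. -/
theorem no_common_lower_bound (m : Cardinal.{0}) (hm : ℵ₀ ≤ m)
    (S : MProduct m (fun _ : ℕ => Set Bool))
    (f : BoundedLatticeHom RO S.B) (hf : IsMHom m f) (hfi : ∀ t a, S.i t a = f (homRO t a))
    (g : BoundedLatticeHom (Set (Finset ℕ)) S.B) (hg : IsMHom m g)
    (hgi : ∀ t a, S.i t a = g (homSet t a)) : False := by
  -- the image of every point is zero
  have hpoint : ∀ G : Finset ℕ, g ({G} : Set (Finset ℕ)) = ⊥ := by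
    intro G
    have hcard : #(Set.range (fun t => homSet t {decide (t ∈ G)})) ≤ m :=
      (mk_le_aleph0_iff.mpr (Set.countable_range _).to_subtype).trans hm
    have hcard' : #(Set.range (fun t => homRO t {decide (t ∈ G)})) ≤ m :=
      (mk_le_aleph0_iff.mpr (Set.countable_range _).to_subtype).trans hm
    have h1 := (hg _ hcard).2 _ (isGLB_singleton G)
    have h2 := (hf _ hcard').2 _ (isGLB_bot (fun t => decide (t ∈ G)))
    have himg : (g '' Set.range (fun t => homSet t {decide (t ∈ G)})) =
        (f '' Set.range (fun t => homRO t {decide (t ∈ G)})) := by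
      rw [← Set.range_comp, ← Set.range_comp]
      congr 1
      funext t
      simp only [Function.comp_apply]
      exact (hgi t {decide (t ∈ G)}).symm.trans (hfi t {decide (t ∈ G)})
    rw [himg] at h1
    rw [h1.unique h2]
    exact map_bot f
  -- the top element is the join of the points
  have hcard : #((fun G : Finset ℕ => ({G} : Set (Finset ℕ))) '' Set.univ) ≤ m :=
    (mk_le_aleph0_iff.mpr ((Set.to_countable Set.univ).image _).to_subtype).trans hm
  have hlub : IsLUB ((fun G : Finset ℕ => ({G} : Set (Finset ℕ))) '' Set.univ)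
      (⊤ : Set (Finset ℕ)) := by
    constructor
    · intro _ _
      exact le_top
    · intro Y hY G _
      exact hY ⟨G, Set.mem_univ G, rfl⟩ rfl
  have h1 := (hg _ hcard).1 _ hlub
  have h2 : g (⊤ : Set (Finset ℕ)) ≤ ⊥ := by
    apply h1.2
    rintro _ ⟨_, ⟨G, _, rfl⟩, rfl⟩
    exact (hpoint G).le
  have h3 : (⊤ : S.B) = ⊥ := by
    have : g (⊤ : Set (Finset ℕ)) = ⊤ := map_top g
    rw [← this]
    exact le_bot_iff.mp h2
  have h4 := S.independent ∅ (fun _ => Set.univ) (fun t ht => absurd ht (Finset.notMem_empty t))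
  rw [Finset.inf_empty] at h4
  exact h4 h3

/-- **Main theorem.** For every infinite cardinal `m` there is a countable family of
non-degenerate Boolean algebras (all with four elements) that has a minimal Boolean
`(m,0)`-product, but for which no Boolean `(m,0)`-product is the smallest one: for every
`(m,0)`-product `S` (in particular for the minimal one) there is an `(m,0)`-product `P` with
`S ≰ P`. -/
theorem result (m : Cardinal.{0}) (hm : ℵ₀ ≤ m) :
    ∃ (A : ℕ → Type) (_ : ∀ t, BooleanAlgebra (A t)),
      (∀ t, Nontrivial (A t) ∧ Nat.card (A t) = 4) ∧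
      (∃ M : MProduct m A, M.IsMinimal) ∧
      ∀ S : MProduct m A, ∃ P : MProduct m A, ¬ S.Le P := by
  refine ⟨fun _ => Set Bool, fun _ => inferInstance,
    fun _ => ⟨inferInstance, by simp [Nat.card_eq_fintype_card]⟩,
    ⟨minimalProduct m hm, minimalProduct_isMinimal m hm⟩, ?_⟩
  intro S
  by_contra hcon
  push Not at hcon
  obtain ⟨f, hf, hfi⟩ := hcon (minimalProduct m hm)
  obtain ⟨g, hg, hgi⟩ := hcon (setProduct m hm)
  exact no_common_lower_bound m hm S f hf hfi g hg hgi

end Pool.Agent.Results.MP_27bb78_al.NoSmallestProduct
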